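import Pool.Agent.Helper79.PB.Own

set_option autoImplicit false
open MeasureTheory ProbabilityTheory

/-!
MP_13b103_pr: infinitely many geodesic rays from every vertex, for every continuous law.

Let `d ≥ 2` and let the edge weights of the lattice be i.i.d. and nonnegative with a law without
atoms. Almost surely
(1) for every vertex `x` there are infinitely many geodesic rays which start at `x`, and
(2) for every `N` there are `N` pairwise disjoint geodesic rays.
-/

namespace Pool.Agent.Results.MP_13b103_pr.AllRays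

theorem result : ∀ (d : ℕ), 2 ≤ d →
  ∀ (μ : Measure ℝ), IsProbabilityMeasure μ → NoAtoms μ → μ (Set.Iio 0) = 0 →
  ∀ (Ω : Type) (mΩ : MeasurableSpace Ω) (P : Measure Ω), IsProbabilityMeasure P →
  ∀ (t : Sym2 (Fin d → ℤ) → Ω → ℝ),
    (∀ e, Measurable (t e)) →
    iIndepFun
      (fun e : {e : Sym2 (Fin d → ℤ) //
          ∃ x y : Fin d → ℤ, e = s(x, y) ∧ ∑ i, |x i - y i| = 1} => t e.1)
      P →
    (∀ x y : Fin d → ℤ, ∑ i, |x i - y i| = 1 →
      Measure.map (t s(x, y)) P = μ) →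
    ∀ᵐ ω ∂P,
      (∀ x : Fin d → ℤ, Set.Infinite {γ : ℕ → (Fin d → ℤ) |
        γ 0 = x ∧ Function.Injective γ ∧
        (∀ k, ∑ i, |γ k i - γ (k + 1) i| = 1) ∧
        ∀ m n : ℕ, m ≤ n →
          ∀ (L : ℕ) (q : ℕ → (Fin d → ℤ)), q 0 = γ m → q L = γ n →
            (∀ k < L, ∑ i, |q k i - q (k + 1) i| = 1) →
            ∑ k ∈ Finset.range (n - m), t s(γ (m + k), γ (m + k + 1)) ω ≤
              ∑ k ∈ Finset.range L, t s(q k, q (k + 1)) ω}) ∧
      ∀ N : ℕ, ∃ γ : Fin N → ℕ → (Fin d → ℤ),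
        (∀ i j, i ≠ j → ∀ k l, γ i k ≠ γ j l) ∧
        ∀ j, Function.Injective (γ j) ∧
          (∀ k, ∑ i, |γ j k i - γ j (k + 1) i| = 1) ∧
          ∀ m n : ℕ, m ≤ n →
            ∀ (L : ℕ) (q : ℕ → (Fin d → ℤ)), q 0 = γ j m → q L = γ j n →
              (∀ k < L, ∑ i, |q k i - q (k + 1) i| = 1) →
              ∑ k ∈ Finset.range (n - m), t s(γ j (m + k), γ j (m + k + 1)) ω ≤
                ∑ k ∈ Finset.range L, t s(q k, q (k + 1)) ω :=
  fun d hd => Pool.Agent.Helper79.PB.own d hd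

end Pool.Agent.Results.MP_13b103_pr.AllRays
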